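import Pool.Agent.Work.MP_bd4052_lc.Interface

set_option autoImplicit false

namespace Pool.Agent.Work.MP_bd4052_lc

namespace HOM

variable {K : Type} [Num K] {φ : K → ℝ}

/-- image of a constraint -/
def mapCon (φ : K → ℝ) (c : Con K) : Con ℝ := (c.1, φ c.2)

/-- image of a cap -/
def mapCap (φ : K → ℝ) (e : Cap K) : Cap ℝ := (mapCon φ e.1, e.2)

theorem zero_hom (h : NumHom K φ) : φ Num.zero = (Num.zero : ℝ) := h.zero

theorem add_hom (h : NumHom K φ) (x y : K) : φ (Num.add x y) = Num.add (φ x) (φ y) := h.add x y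

theorem neg_hom (h : NumHom K φ) (x : K) : φ (Num.neg x) = Num.neg (φ x) := h.neg x

theorem lt_hom (h : NumHom K φ) (x y : K) : Num.lt (φ x) (φ y) = Num.lt x y := (h.lt x y).symm

theorem nsub_hom (h : NumHom K φ) (x y : K) : φ (nsub x y) = nsub (φ x) (φ y) := by
  simp only [nsub, add_hom h, neg_hom h]

theorem neqb_hom (h : NumHom K φ) (x y : K) : neqb (φ x) (φ y) = neqb x y := by
  simp only [neqb, lt_hom h]

omit [Num K] in
theorem cond_hom (φ : K → ℝ) (b : Bool) (x y : K) : φ (bif b then x else y)
    = bif b then φ x else φ y := by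
  cases b <;> rfl

theorem ndot_hom (h : NumHom K φ) (i : ℕ) (x y : K) : φ (ndot i x y) = ndot i (φ x) (φ y) := by
  simp only [ndot, cond_hom φ, add_hom h, nsub_hom h, neg_hom h]

theorem nlam_hom (h : NumHom K φ) (i j : ℕ) (x y : K) :
    φ (nlam i j x y) = nlam i j (φ x) (φ y) := by
  simp only [nlam, cond_hom φ, add_hom h, nsub_hom h]

theorem cneg_hom (h : NumHom K φ) (c : Con K) : cneg (mapCon φ c) = mapCon φ (cneg c) := by
  simp only [cneg, mapCon, neg_hom h]

theorem rectC_hom (h : NumHom K φ) (r : Rec K) :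
    rectC (mapRec φ r) = (rectC r).map (mapCon φ) := by
  simp only [rectC, mapRec, mapCon, List.map_cons, List.map_nil, add_hom h, nsub_hom h, neg_hom h]

theorem creflect_hom (h : NumHom K φ) (j : ℕ) (d : K) (c : Con K) :
    creflect j (φ d) (mapCon φ c) = mapCon φ (creflect j d c) := by
  simp only [creflect, mapCon, nlam_hom h]

theorem ctest_hom (h : NumHom K φ) (L : List (Con K)) : ctest (L.map (mapCon φ)) = ctest L := by
  simp only [ctest, List.all_map, Function.comp_def, mapCon, ← add_hom h, ← zero_hom h, lt_hom h,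
    ← cond_hom φ]
  rfl

theorem cproper_hom (h : NumHom K φ) (r : Rec K) (e : Con K) :
    cproper (mapRec φ r) (mapCon φ e) = cproper r e := by
  simp only [cproper, rectC_hom h, cneg_hom h, ← List.map_cons, ctest_hom h]

theorem csub_hom (h : NumHom K φ) (r : Rec K) (e f : Con K) :
    csub (mapRec φ r) (mapCon φ e) (mapCon φ f) = csub r e f := by
  simp only [csub, rectC_hom h, cneg_hom h, ← List.map_cons, ctest_hom h]

theorem cdisj_hom (h : NumHom K φ) (r : Rec K) (e f : Con K) :
    cdisj (mapRec φ r) (mapCon φ e) (mapCon φ f) = cdisj r e f := by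
  simp only [cdisj, rectC_hom h, cneg_hom h, ← List.map_cons, ctest_hom h]

theorem capAt_hom (h : NumHom K φ) (C : List (Cap K)) (i : ℕ) :
    capAt (C.map (mapCap φ)) i = mapCap φ (capAt C i) := by
  unfold capAt
  have e : ((0, Num.zero), false) = mapCap φ ((0, Num.zero), false) := by
    simp only [mapCap, mapCon, zero_hom h]
  rw [e, List.getD_map]

theorem capAt_hom1 (h : NumHom K φ) (C : List (Cap K)) (i : ℕ) :
    (capAt (C.map (mapCap φ)) i).1 = mapCon φ (capAt C i).1 := by
  rw [capAt_hom h]
  rfl

theorem isub_hom (h : NumHom K φ) (r : Rec K) (C : List (Cap K)) (i j : ℕ) :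
    isub (mapRec φ r) (C.map (mapCap φ)) i j = isub r C i j := by
  simp only [isub, capAt_hom1 h, csub_hom h]

theorem idisj_hom (h : NumHom K φ) (r : Rec K) (C : List (Cap K)) (i j : ℕ) :
    idisj (mapRec φ r) (C.map (mapCap φ)) i j = idisj r C i j := by
  simp only [idisj, capAt_hom1 h, cdisj_hom h]

theorem laminar_hom (h : NumHom K φ) (r : Rec K) (C : List (Cap K)) :
    laminar (mapRec φ r) (C.map (mapCap φ)) = laminar r C := by
  simp only [laminar, capAt_hom1 h, cproper_hom h, isub_hom h, idisj_hom h, List.length_map]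

theorem depth_hom (h : NumHom K φ) (r : Rec K) (C : List (Cap K)) (i : ℕ) :
    depth (mapRec φ r) (C.map (mapCap φ)) i = depth r C i := by
  simp only [depth, isub_hom h, List.length_map]

theorem chain_hom (h : NumHom K φ) (r : Rec K) (C : List (Cap K)) (i : ℕ) :
    chain (mapRec φ r) (C.map (mapCap φ)) i = chain r C i := by
  simp only [chain, isub_hom h, depth_hom h, List.length_map]

theorem upf_hom (h : NumHom K φ) (r : Rec K) (C : List (Cap K)) (i : ℕ) :
    upf (mapRec φ r) (C.map (mapCap φ)) i = upf r C i := by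
  simp only [upf, capAt_hom h, depth_hom h]
  rfl

theorem base_hom (h : NumHom K φ) (r : Rec K) (C : List (Cap K)) (dn : List ℕ) (k : ℕ) :
    base (mapRec φ r) (C.map (mapCap φ)) dn k = (base r C dn k).map (mapCon φ) := by
  simp only [base, capAt_hom1 h, cneg_hom h, isub_hom h, rectC_hom h]
  cases decide (k = 0) <;> simp [List.map_map, Function.comp_def]

theorem pchain_hom (h : NumHom K φ) (r : Rec K) (C : List (Cap K)) (k : ℕ) :
    pchain (mapRec φ r) (C.map (mapCap φ)) k = pchain r C k := by
  simp only [pchain, chain_hom h]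

theorem move_hom (h : NumHom K φ) (C : List (Cap K)) (ch : List ℕ) (L : List (Con K)) :
    move (C.map (mapCap φ)) ch (L.map (mapCon φ)) = (move C ch L).map (mapCon φ) := by
  induction ch generalizing L with
  | nil => rfl
  | cons j ch ih =>
    have h1 : ∀ (C' : List (Cap ℝ)) (L' : List (Con ℝ)), move C' (j :: ch) L'
        = move C' ch (L'.map (creflect (capAt C' j).1.1 (capAt C' j).1.2)) := fun _ _ => rfl
    have h2 : move C (j :: ch) L
        = move C ch (L.map (creflect (capAt C j).1.1 (capAt C j).1.2)) := rfl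
    rw [h1, h2, ← ih, capAt_hom1 h]
    simp only [List.map_map]
    congr 1
    refine List.map_congr_left fun c _ => ?_
    exact creflect_hom h _ _ c

theorem region_hom (h : NumHom K φ) (r : Rec K) (C : List (Cap K)) (dn : List ℕ) (k : ℕ) :
    region (mapRec φ r) (C.map (mapCap φ)) dn k = (region r C dn k).map (mapCon φ) := by
  simp only [region, base_hom h, pchain_hom h, move_hom h]

theorem rotreg_hom (h : NumHom K φ) (r : Rec K) (C : List (Cap K)) (k e : ℕ) :
    rotreg (mapRec φ r) (C.map (mapCap φ)) k e = (rotreg r C k e).map (mapCon φ) := by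
  simp only [rotreg, capAt_hom1 h, cneg_hom h, rectC_hom h, pchain_hom h, ← List.map_cons,
    move_hom h]

theorem side_hom (h : NumHom K φ) (r : Rec K) (C : List (Cap K)) (dn dp : List ℕ) (k : ℕ)
    (up : Bool) : side (mapRec φ r) (C.map (mapCap φ)) dn dp k up = side r C dn dp k up := by
  simp only [side, upf_hom h]

theorem unblocked_hom (h : NumHom K φ) (r : Rec K) (C : List (Cap K)) (dn dp : List ℕ)
    (k e : ℕ) : unblocked (mapRec φ r) (C.map (mapCap φ)) dn dp k e = unblocked r C dn dp k e := by
  simp only [unblocked, side_hom h, upf_hom h, region_hom h, rotreg_hom h, ← List.map_append,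
    ctest_hom h]

theorem inCorner_hom (h : NumHom K φ) (r : Rec K) (C : List (Cap K)) (c e : ℕ) :
    inCorner (mapRec φ r) (C.map (mapCap φ)) c e = inCorner r C c e := by
  simp only [inCorner, capAt_hom1 h, mapCon, mapRec, ← cond_hom φ, ← ndot_hom h, lt_hom h]

theorem made_hom (h : NumHom K φ) (r : Rec K) (C : List (Cap K)) (T : List ℕ) :
    made (mapRec φ r) (C.map (mapCap φ)) T = made r C T := by
  simp only [made, isub_hom h, List.length_map]

theorem cornerOf_hom (h : NumHom K φ) (r : Rec K) (C : List (Cap K)) (e : ℕ) :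
    cornerOf (mapRec φ r) (C.map (mapCap φ)) e = cornerOf r C e := by
  simp only [cornerOf, inCorner_hom h]

theorem okStep_hom (h : NumHom K φ) (r : Rec K) (C : List (Cap K)) (s : St) (e : ℕ) :
    okStep (mapRec φ r) (C.map (mapCap φ)) s e = okStep r C s e := by
  simp only [okStep, made_hom h, isub_hom h, unblocked_hom h, cornerOf_hom h, List.length_map]

theorem newTips_hom (h : NumHom K φ) (r : Rec K) (C : List (Cap K)) (T : List ℕ) (e : ℕ) :
    newTips (mapRec φ r) (C.map (mapCap φ)) T e = newTips r C T e := by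
  simp only [newTips, inCorner_hom h]

theorem doStep_hom (h : NumHom K φ) (r : Rec K) (C : List (Cap K)) (s : St) (e : ℕ) :
    doStep (mapRec φ r) (C.map (mapCap φ)) s e = doStep r C s e := by
  simp only [doStep, newTips_hom h, inCorner_hom h]

theorem nextSt_hom (h : NumHom K φ) (r : Rec K) (C : List (Cap K)) (l : List St) :
    nextSt (mapRec φ r) (C.map (mapCap φ)) l = nextSt r C l := by
  simp only [nextSt, okStep_hom h, doStep_hom h, List.length_map]

theorem searchAll_hom (h : NumHom K φ) (r : Rec K) (C : List (Cap K)) :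
    searchAll (mapRec φ r) (C.map (mapCap φ)) = searchAll r C := by
  simp only [searchAll, nextSt_hom h, List.length_map]

theorem lineOf_hom (h : NumHom K φ) (c : Cr K) : lineOf (mapCr φ c) = mapCon φ (lineOf c) := by
  simp only [lineOf, mapCr, ← nsub_hom h, neqb_hom h, ← add_hom h]
  cases neqb c.1.1.1 c.1.2.1 <;> cases neqb c.1.1.2 c.1.2.2 <;>
    cases neqb (nsub c.1.2.1 c.1.1.1) (nsub c.1.2.2 c.1.1.2) <;> rfl

theorem leq_hom (h : NumHom K φ) (a b : Con K) : leq (mapCon φ a) (mapCon φ b) = leq a b := by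
  simp only [leq, mapCon, neqb_hom h]
  rfl

/-- image of a point -/
def mapP (φ : K → ℝ) (p : K × K) : ℝ × ℝ := (φ p.1, φ p.2)

omit [Num K] in
theorem tcoord_hom (i : ℕ) (p : K × K) : tcoord i (mapP φ p) = φ (tcoord i p) := by
  simp only [tcoord, mapP, cond_hom φ]

omit [Num K] in
theorem condP_hom (φ : K → ℝ) (b : Bool) (x y : K × K) : mapP φ (bif b then x else y)
    = bif b then mapP φ x else mapP φ y := by
  cases b <;> rfl

omit [Num K] in
theorem mapCr_eq (c : Cr K) : mapCr φ c = ((mapP φ c.1.1, mapP φ c.1.2), c.2) := rfl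

theorem lowEnd_hom (h : NumHom K φ) (c : Cr K) : lowEnd (mapCr φ c) = mapP φ (lowEnd c) := by
  simp only [lowEnd, condP_hom φ]
  rw [lineOf_hom h]
  simp only [mapCr_eq, mapCon, tcoord_hom, lt_hom h]

theorem highEnd_hom (h : NumHom K φ) (c : Cr K) : highEnd (mapCr φ c) = mapP φ (highEnd c) := by
  simp only [highEnd, condP_hom φ]
  rw [lineOf_hom h]
  simp only [mapCr_eq, mapCon, tcoord_hom, lt_hom h]

theorem onBd_hom (h : NumHom K φ) (r : Rec K) (p : K × K) :
    onBd (mapRec φ r) (mapP φ p) = onBd r p := by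
  simp only [onBd, mapRec, mapP, neqb_hom h]

theorem propCr_hom (h : NumHom K φ) (r : Rec K) (L : List (Cr K)) :
    propCr (mapRec φ r) (L.map (mapCr φ)) = (propCr r L).map (mapCr φ) := by
  simp only [propCr, List.filter_map, Function.comp_def, lineOf_hom h, cproper_hom h]

theorem creOK_hom (h : NumHom K φ) (r : Rec K) (L : List (Cr K)) :
    creOK (mapRec φ r) (L.map (mapCr φ)) = creOK r L := by
  simp only [creOK, propCr_hom h, List.all_map, List.any_map, Function.comp_def, lineOf_hom h,
    leq_hom h, lowEnd_hom h, highEnd_hom h, onBd_hom h]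
  simp only [mapCon, tcoord_hom, lt_hom h]
  rfl

theorem foldl_hom (h : NumHom K φ) (L : List (Cr K)) (acc : List (Cap K)) :
    (L.map (mapCr φ)).foldl (fun acc c => bif acc.any (fun e => leq e.1 (lineOf c)) then acc
      else acc ++ [(lineOf c, c.2)]) (acc.map (mapCap φ))
    = (L.foldl (fun acc c => bif acc.any (fun e => leq e.1 (lineOf c)) then acc
      else acc ++ [(lineOf c, c.2)]) acc).map (mapCap φ) := by
  induction L generalizing acc with
  | nil => rfl
  | cons c L ih =>
    simp only [List.map_cons, List.foldl_cons]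
    rw [← ih]
    congr 1
    have h1 : ((acc.map (mapCap φ)).any fun e => leq e.1 (lineOf (mapCr φ c)))
        = acc.any fun e => leq e.1 (lineOf c) := by
      simp only [List.any_map, Function.comp_def, mapCap, lineOf_hom h, leq_hom h]
    rw [h1]
    cases acc.any fun e => leq e.1 (lineOf c)
    · simp only [cond_false, List.map_append, List.map_cons, List.map_nil, lineOf_hom h]
      rfl
    · rfl

theorem chords_hom (h : NumHom K φ) (r : Rec K) (L : List (Cr K)) :
    chords (mapRec φ r) (L.map (mapCr φ)) = (chords r L).map (mapCap φ) := by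
  unfold chords
  rw [propCr_hom h]
  exact foldl_hom h _ []

theorem orient_hom (h : NumHom K φ) (r : Rec K) (a e : Cap K) :
    orient (mapRec φ r) (mapCap φ a) (mapCap φ e) = mapCap φ (orient r a e) := by
  simp only [orient, mapCap, cneg_hom h, leq_hom h, csub_hom h, cdisj_hom h]
  cases leq a.1 e.1 || leq (cneg a.1) e.1 <;> cases csub r e.1 a.1 || cdisj r e.1 a.1 <;> rfl

theorem alg_hom (h : NumHom K φ) (r : Rec K) (L : List (Cr K)) :
    alg (mapRec φ r) (L.map (mapCr φ)) = alg r L := by
  have h1 : ∀ a : Cap K, ((chords r L).map (mapCap φ)).map (orient (mapRec φ r) (mapCap φ a))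
      = ((chords r L).map (orient r a)).map (mapCap φ) := by
    intro a
    simp only [List.map_map]
    refine List.map_congr_left fun e _ => ?_
    exact orient_hom h r a e
  have h2 : ∀ e : Cap K, ((cneg (mapCap φ e).1, (mapCap φ e).2) : Cap ℝ)
      = mapCap φ (cneg e.1, e.2) := by
    intro e
    simp only [mapCap, cneg_hom h]
  simp only [alg, creOK_hom h, chords_hom h, List.isEmpty_map, List.any_map, Function.comp_def,
    h1, h2, laminar_hom h, searchAll_hom h]

end HOM

theorem stmt_HOM : Stmt_HOM := fun _ _ _ h r L => (HOM.alg_hom h r L).symm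

end Pool.Agent.Work.MP_bd4052_lc
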