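import Pool.Agent.Work.MP_bd4052_lc_helper52.GEO1

set_option autoImplicit false

namespace Pool.Agent.Work.MP_bd4052_lc

namespace ORI

open GEO

variable {r : Rec ℝ}

theorem sameL_symm {e f : Con ℝ} (hf : f.1 < 8) (h : SameL e f) : SameL f e := by
  rcases h with h | h
  · exact Or.inl h.symm
  · right
    rw [h, cneg_cneg f hf]

theorem sameL_trans {e f g : Con ℝ} (hg : g.1 < 8) (h : SameL e f) (h' : SameL f g) :
    SameL e g := by
  rcases h with rfl | rfl
  · exact h'
  · rcases h' with rfl | rfl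
    · exact Or.inr rfl
    · left
      rw [cneg_cneg g hg]

/-- move off the line of `e` to the negative side -/
theorem off_neg {e b : Con ℝ} {z : Pt} (hz : z ∈ RI r) (hb : b.2 < dotR b.1 z)
    (he : dotR e.1 z ≤ e.2) : ∃ z' ∈ RI r, b.2 < dotR b.1 z' ∧ dotR e.1 z' < e.2 := by
  obtain ⟨s, hs, h3, h4⟩ := add_RI' (e := b) hz (-nvec e.1) hb
  refine ⟨_, h3, h4, ?_⟩
  have hv : dotR e.1 (-nvec e.1) = -dotR e.1 (nvec e.1) := by
    rw [dot_eq, dot_eq e.1 (nvec e.1)]
    simp only [Prod.fst_neg, Prod.snd_neg]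
    ring
  have h5 := dot_nvec_pos e.1
  rw [dot_add, hv]
  nlinarith [mul_pos hs h5]

theorem off_pos {e b : Con ℝ} {z : Pt} (hz : z ∈ RI r) (hb : b.2 < dotR b.1 z)
    (he : e.2 ≤ dotR e.1 z) : ∃ z' ∈ RI r, b.2 < dotR b.1 z' ∧ e.2 < dotR e.1 z' := by
  obtain ⟨s, hs, h3, h4⟩ := add_RI' (e := b) hz (nvec e.1) hb
  refine ⟨_, h3, h4, ?_⟩
  have h5 := dot_nvec_pos e.1
  rw [dot_add]
  nlinarith [mul_pos hs h5]

theorem neg_iff {e : Con ℝ} (he : e.1 < 8) (z : Pt) :
    (cneg e).2 < dotR (cneg e).1 z ↔ dotR e.1 z < e.2 := by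
  rw [cneg_dot e he, cneg_snd]
  constructor <;> intro h <;> linarith

/-- exactly one orientation of a chord is nested in or disjoint from `a` -/
theorem side_unique {e a : Con ℝ} (he : e.1 < 8) (ha : a.1 < 8) (hpe : ProperS r e)
    (hpa : ProperS r a) (hne : ¬ SameL e a) (h1 : SubS r (cneg e) a ∨ DisjS r (cneg e) a)
    (h2 : SubS r e a ∨ DisjS r e a) : False := by
  rcases h1 with h1 | h1 <;> rcases h2 with h2 | h2
  · obtain ⟨w, hw, hw1⟩ := hpa.2
    have hw1' := (neg_iff ha w).2 hw1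
    rcases le_total (dotR e.1 w) e.2 with h | h
    · obtain ⟨z, hz, hz1, hz2⟩ := off_neg (e := e) hw hw1' h
      have := h1 z hz ((neg_iff he z).2 hz2)
      rw [neg_iff ha] at hz1
      linarith
    · obtain ⟨z, hz, hz1, hz2⟩ := off_pos (e := e) hw hw1' h
      have := h2 z hz hz2
      rw [neg_iff ha] at hz1
      linarith
  · apply hne
    right
    have : cneg e = a := by
      refine mutual' (cneg_lt e) ha (proper_cneg he hpe) hpa h1 ?_
      intro z hz haz
      rw [neg_iff he]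
      by_contra hc
      push Not at hc
      obtain ⟨z', hz', hz1, hz2⟩ := off_pos (e := e) hz haz hc
      exact h2 z' hz' hz2 hz1
    rw [← this, cneg_cneg e he]
  · apply hne
    left
    refine mutual' he ha hpe hpa h2 ?_
    intro z hz haz
    by_contra hc
    push Not at hc
    obtain ⟨z', hz', hz1, hz2⟩ := off_neg (e := e) hz haz hc
    exact h1 z' hz' ((neg_iff he z').2 hz2) hz1
  · obtain ⟨w, hw, hw1⟩ := hpa.1
    rcases le_total (dotR e.1 w) e.2 with h | h
    · obtain ⟨z, hz, hz1, hz2⟩ := off_neg (e := e) hw hw1 h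
      exact h1 z hz ((neg_iff he z).2 hz2) hz1
    · obtain ⟨z, hz, hz1, hz2⟩ := off_pos (e := e) hw hw1 h
      exact h2 z hz hz2 hz1

theorem vsr_pairwise : ∀ {G : List (Cap ℝ)}, VSR r G →
    G.Pairwise (fun e f => ¬ SameL e.1 f.1)
  | [], _ => List.Pairwise.nil
  | e :: G, h => List.Pairwise.cons (fun f hf => (h.2.2.2.1 f hf).2) (vsr_pairwise h.1)

/-- the first fold -/
theorem vsr_first : ∀ {G : List (Cap ℝ)}, VSR r G → G ≠ [] →
    ∃ a ∈ G, ∀ g ∈ G, g = a ∨ ((SubS r g.1 a.1 ∨ DisjS r g.1 a.1) ∧ ¬ SameL g.1 a.1)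
  | [], _, h => absurd rfl h
  | [e], _, _ => ⟨e, List.mem_singleton.2 rfl, fun g hg => Or.inl (List.mem_singleton.1 hg)⟩
  | e :: e' :: G, h, _ => by
    obtain ⟨a, ha, h1⟩ := vsr_first h.1 (by simp)
    refine ⟨a, List.mem_cons_of_mem _ ha, fun g hg => ?_⟩
    rcases List.mem_cons.1 hg with rfl | hg
    · exact Or.inr (h.2.2.2.1 a ha)
    · exact h1 g hg

/-- the label and the line of `orient r a e` -/
theorem orient_spec (hG2 : Stmt_GEO2) (hr : RecOK r) (a e : Cap ℝ) (he : e.1.1 < 8)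
    (ha : a.1.1 < 8) :
    (orient r a e).2 = e.2 ∧ SameL (orient r a e).1 e.1 ∧ (orient r a e).1.1 < 8 := by
  have hleq := (hG2 r hr).2.2.2.2
  unfold orient
  cases h1 : leq a.1 e.1 || leq (cneg a.1) e.1
  · cases h2 : csub r e.1 a.1 || cdisj r e.1 a.1
    · exact ⟨rfl, Or.inr rfl, cneg_lt _⟩
    · exact ⟨rfl, Or.inl rfl, he⟩
  · refine ⟨rfl, ?_, ha⟩
    rw [Bool.or_eq_true, hleq, hleq] at h1
    rcases h1 with h1 | h1
    · exact Or.inl h1
    · right
      change a.1 = cneg e.1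
      rw [← h1, cneg_cneg _ ha]

theorem mem_unique {G : List (Cap ℝ)} (hG : G.Pairwise (fun e f => ¬ SameL e.1 f.1))
    (hd : ∀ e ∈ G, e.1.1 < 8) {e f : Cap ℝ} (he : e ∈ G) (hf : f ∈ G) (h : SameL e.1 f.1) :
    e = f := by
  by_contra hne
  have hsym : Std.Symm (fun e f : {x : Cap ℝ // x ∈ G} => ¬ SameL e.1.1 f.1.1) :=
    ⟨fun a b h h' => h (sameL_symm (hd _ a.2) h')⟩
  induction G with
  | nil => simp at he
  | cons g G ih =>
    rw [List.pairwise_cons] at hG
    rcases List.mem_cons.1 he with h1 | h1 <;> rcases List.mem_cons.1 hf with h2 | h2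
    · exact hne (h1.trans h2.symm)
    · subst h1
      exact hG.1 f h2 h
    · subst h2
      exact hG.1 e h1 (sameL_symm (hd _ List.mem_cons_self) h)
    · refine ih hG.2 (fun e he => hd e (List.mem_cons_of_mem _ he)) h1 h2 ?_
      exact ⟨fun a b h h' => h (sameL_symm (hd _ (List.mem_cons_of_mem _ a.2)) h')⟩

theorem recOK (m : PaperMap) (hm : m.Valid) : RecOK (recR m) := by
  obtain ⟨h1, h2, -⟩ := hm
  constructor
  · change (m.x0 : ℝ) < m.x1
    exact_mod_cast h1
  · change (m.y0 : ℝ) < m.y1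
    exact_mod_cast h2

theorem capAt_mem (C : List (Cap ℝ)) (j : ℕ) (hj : j < C.length) : capAt C j ∈ C := by
  unfold capAt
  rw [List.getD_eq_getElem _ _ hj]
  exact List.getElem_mem hj

theorem exists_idx (C : List (Cap ℝ)) (e : Cap ℝ) (he : e ∈ C) : ∃ j < C.length, capAt C j = e := by
  obtain ⟨j, hj, h⟩ := List.getElem_of_mem he
  refine ⟨j, hj, ?_⟩
  unfold capAt
  rw [List.getD_eq_getElem _ _ hj, h]

theorem laminar_iff (hG2 : Stmt_GEO2) (hr : RecOK r) (C : List (Cap ℝ))
    (hd : ∀ e ∈ C, e.1.1 < 8) (h1 : ∀ e ∈ C, ProperS r e.1)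
    (h2 : ∀ e ∈ C, ∀ f ∈ C, SubS r e.1 f.1 ∨ SubS r f.1 e.1 ∨ DisjS r e.1 f.1) :
    laminar r C = true := by
  obtain ⟨g1, g2, g3, -, -⟩ := hG2 r hr
  unfold laminar
  rw [List.all_eq_true]
  intro i hi
  rw [List.mem_range] at hi
  have hci := capAt_mem C i hi
  rw [Bool.and_eq_true, List.all_eq_true]
  refine ⟨(g1 _ (hd _ hci)).2 (h1 _ hci), fun j hj => ?_⟩
  rw [List.mem_range] at hj
  have hcj := capAt_mem C j hj
  simp only [Bool.or_eq_true, isub, idisj]
  rcases h2 _ hci _ hcj with h | h | h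
  · exact Or.inl (Or.inl (Or.inr ((g2 _ _ (hd _ hci) (hd _ hcj)).2 h)))
  · exact Or.inl (Or.inr ((g2 _ _ (hd _ hcj) (hd _ hci)).2 h))
  · exact Or.inr ((g3 _ _ (hd _ hci) (hd _ hcj)).2 h)

theorem laminar_proper (hG2 : Stmt_GEO2) (hr : RecOK r) (C : List (Cap ℝ))
    (hd : ∀ e ∈ C, e.1.1 < 8) (h : laminar r C = true) : ∀ e ∈ C, ProperS r e.1 := by
  intro e he
  obtain ⟨j, hj, rfl⟩ := exists_idx C e he
  unfold laminar at h
  rw [List.all_eq_true] at h
  have h1 := h j (List.mem_range.2 hj)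
  rw [Bool.and_eq_true] at h1
  exact ((hG2 r hr).1 _ (hd _ he)).1 h1.1

/-- any valid sequence of caps with the lines of the chords is an orientation of the chords -/
theorem exists_orient (hG2 : Stmt_GEO2) (hr : RecOK r) (G Ch : List (Cap ℝ)) (hG : VSR r G)
    (hGp : ∀ e ∈ G, e.1.1 < 8 ∧ ProperS r e.1)
    (hCd : ∀ e ∈ Ch, e.1.1 < 4 ∧ ProperS r e.1)
    (hCp : Ch.Pairwise (fun e f => ¬ SameL e.1 f.1))
    (h1 : ∀ e ∈ G, ∃ f ∈ Ch, f.2 = e.2 ∧ SameL e.1 f.1)
    (h2 : ∀ f ∈ Ch, ∃ e ∈ G, f.2 = e.2 ∧ SameL e.1 f.1) (hne : G ≠ []) :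
    ∃ a : Cap ℝ, (a ∈ Ch ∨ (∃ f ∈ Ch, a = (cneg f.1, f.2))) ∧
      G.Perm (Ch.map (orient r a)) := by
  obtain ⟨g1, g2, g3, g4, g5⟩ := hG2 r hr
  have hCd8 : ∀ e ∈ Ch, e.1.1 < 8 := fun e he => by have := (hCd e he).1; omega
  have hGd8 : ∀ e ∈ G, e.1.1 < 8 := fun e he => (hGp e he).1
  have hpw := vsr_pairwise hG
  obtain ⟨a, ha, hfirst⟩ := vsr_first hG hne
  -- the key computation
  have key : ∀ e ∈ Ch, ∀ g ∈ G, e.2 = g.2 → SameL g.1 e.1 → orient r a e = g := by
    intro e he g hg h3 h4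
    by_cases hga : g = a
    · subst hga
      have h5 : (leq g.1 e.1 || leq (cneg g.1) e.1) = true := by
        rw [Bool.or_eq_true, g5, g5]
        rcases h4 with h4 | h4
        · exact Or.inl h4
        · right
          rw [h4, cneg_cneg _ (hCd8 e he)]
      unfold orient
      rw [h5, cond_true, h3]
    · obtain ⟨h6, h7⟩ := (hfirst g hg).resolve_left hga
      have h5 : (leq a.1 e.1 || leq (cneg a.1) e.1) = false := by
        rw [Bool.eq_false_iff, Ne, Bool.or_eq_true, g5, g5]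
        rintro (h8 | h8)
        · apply h7
          rw [h8]
          exact h4
        · apply h7
          have h9 : SameL e.1 a.1 := by
            right
            exact h8.symm
          exact sameL_trans (hGd8 a ha) h4 h9
      unfold orient
      rw [h5, cond_false]
      rcases h4 with h4 | h4
      · have h8 : (csub r e.1 a.1 || cdisj r e.1 a.1) = true := by
          rw [Bool.or_eq_true, g2 _ _ (hCd8 e he) (hGd8 a ha), g3 _ _ (hCd8 e he) (hGd8 a ha),
            ← h4]
          exact h6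
        rw [h8, cond_true]
        exact Prod.ext h4.symm h3
      · have h8 : (csub r e.1 a.1 || cdisj r e.1 a.1) = false := by
          rw [Bool.eq_false_iff, Ne, Bool.or_eq_true, g2 _ _ (hCd8 e he) (hGd8 a ha),
            g3 _ _ (hCd8 e he) (hGd8 a ha)]
          intro h9
          rw [h4] at h6
          refine side_unique (hCd8 e he) (hGd8 a ha) (hCd e he).2 (hGp a ha).2 ?_ h6 h9
          intro h10
          apply h7
          have h11 : SameL g.1 e.1 := Or.inr h4
          exact sameL_trans (hGd8 a ha) h11 h10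
        rw [h8, cond_false]
        exact Prod.ext h4.symm h3
  refine ⟨a, ?_, ?_⟩
  · obtain ⟨f, hf, h3, h4⟩ := h1 a ha
    rcases h4 with h4 | h4
    · left
      have : a = f := Prod.ext h4 h3.symm
      rw [this]
      exact hf
    · right
      exact ⟨f, hf, Prod.ext h4 h3.symm⟩
  · have hnd : G.Nodup := by
      refine hpw.imp_of_mem ?_
      intro e f _ _ h hef
      exact h (Or.inl (by rw [hef]))
    have hnd2 : (Ch.map (orient r a)).Nodup := by
      rw [List.Nodup, List.pairwise_map]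
      refine hCp.imp_of_mem ?_
      intro e f he hf h hef
      apply h
      have s1 := (orient_spec hG2 hr a e (hCd8 e he) (hGd8 a ha))
      have s2 := (orient_spec hG2 hr a f (hCd8 f hf) (hGd8 a ha))
      have s3 : SameL e.1 (orient r a e).1 := sameL_symm (hCd8 e he) s1.2.1
      rw [hef] at s3
      exact sameL_trans (hCd8 f hf) s3 s2.2.1
    rw [List.perm_ext_iff_of_nodup hnd hnd2]
    intro g
    rw [List.mem_map]
    constructor
    · intro hg
      obtain ⟨f, hf, h3, h4⟩ := h1 g hg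
      exact ⟨f, hf, key f hf g hg h3 h4⟩
    · rintro ⟨f, hf, rfl⟩
      obtain ⟨e, he, h3, h4⟩ := h2 f hf
      rw [key f hf e he h3 h4]
      exact he

end ORI

open ORI GEO in
theorem stmt_ORI (hG2 : Stmt_GEO2) (hSEM0 : Stmt_SEM0) (hSEM : Stmt_SEM) (hCRE : Stmt_CRE)
    (hCHO : Stmt_CHO) (hABS1 : Stmt_ABS1) (hABS2 : Stmt_ABS2) : Stmt_ORI := by
  intro m hm
  have hr := recOK m hm
  set r := recR m with hrdef
  set L := cresR m with hL
  obtain ⟨hCd, hCp⟩ := hCHO m hm
  rw [← hrdef, ← hL] at hCd hCp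
  have hCd8 : ∀ e ∈ chords r L, e.1.1 < 8 := fun e he => by have := (hCd e he).1; omega
  rw [hSEM m hm]
  unfold alg
  rw [Bool.and_eq_true, Bool.or_eq_true]
  constructor
  · rintro ⟨G, hG, hmarks⟩
    obtain ⟨s1, s2, -⟩ := hSEM0 r hr G hG
    have hpw := vsr_pairwise hG
    obtain ⟨c1, c2, c3⟩ := (hCRE m hm G s1 hpw).1 hmarks
    refine ⟨c1, ?_⟩
    by_cases hne : G = []
    · left
      rw [List.isEmpty_iff]
      by_contra hC
      obtain ⟨f, hf⟩ := List.exists_mem_of_ne_nil _ hC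
      obtain ⟨e, he, -⟩ := c3 f hf
      rw [hne] at he
      simp at he
    · right
      obtain ⟨a, ha, hperm⟩ := exists_orient hG2 hr G (chords r L) hG s1 hCd hCp c2 c3 hne
      have ha8 : a.1.1 < 8 := by
        rcases ha with ha | ⟨f, hf, rfl⟩
        · exact hCd8 a ha
        · exact cneg_lt _
      have hd : ∀ e ∈ (chords r L).map (orient r a), e.1.1 < 8 := fun e he =>
        (s1 e (hperm.mem_iff.2 he)).1
      have hlam : laminar r ((chords r L).map (orient r a)) = true :=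
        laminar_iff hG2 hr _ hd (fun e he => (s1 e (hperm.mem_iff.2 he)).2)
          (fun e he f hf => s2 e (hperm.mem_iff.2 he) f (hperm.mem_iff.2 hf))
      have hpw2 : ((chords r L).map (orient r a)).Pairwise (fun e f => ¬ SameL e.1 f.1) := by
        rw [List.pairwise_map]
        refine hCp.imp_of_mem ?_
        intro e f he hf h hef
        apply h
        have t1 := orient_spec hG2 hr a e (hCd8 e he) ha8
        have t2 := orient_spec hG2 hr a f (hCd8 f hf) ha8
        exact sameL_trans (hCd8 f hf) (sameL_trans t2.2.2 (sameL_symm (hCd8 e he) t1.2.1) hef)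
          t2.2.1
      have hOK : CapsOK r ((chords r L).map (orient r a)) := ⟨hr, hd, hlam, hpw2⟩
      have hs : searchAll r ((chords r L).map (orient r a)) = true :=
        (hABS2 r _ hOK).1 ((hABS1 r _ hOK).1 ⟨G, hperm, hG⟩)
      rw [List.any_eq_true]
      rcases ha with ha | ⟨f, hf, rfl⟩
      · refine ⟨a, ha, ?_⟩
        rw [hlam, hs]
        rfl
      · refine ⟨f, hf, ?_⟩
        rw [hlam, hs]
        simp
  · rintro ⟨c1, c2⟩
    rcases c2 with c2 | c2
    · rw [List.isEmpty_iff] at c2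
      refine ⟨[], trivial, ?_⟩
      rw [hCRE m hm [] (by simp) List.Pairwise.nil]
      refine ⟨c1, by simp, ?_⟩
      rw [← hrdef, ← hL, c2]
      simp
    · -- an orientation for which the search succeeds
      have hex : ∃ a : Cap ℝ, a.1.1 < 8 ∧ laminar r ((chords r L).map (orient r a)) = true ∧
          searchAll r ((chords r L).map (orient r a)) = true := by
        rw [List.any_eq_true] at c2
        obtain ⟨e, he, h⟩ := c2
        rw [Bool.or_eq_true, Bool.and_eq_true, Bool.and_eq_true] at h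
        rcases h with h | h
        · exact ⟨e, hCd8 e he, h.1, h.2⟩
        · exact ⟨(cneg e.1, e.2), cneg_lt _, h.1, h.2⟩
      obtain ⟨a, ha8, hlam, hs⟩ := hex
      have hd : ∀ e ∈ (chords r L).map (orient r a), e.1.1 < 8 := by
        intro e he
        obtain ⟨f, hf, rfl⟩ := List.mem_map.1 he
        exact (orient_spec hG2 hr a f (hCd8 f hf) ha8).2.2
      have hpw2 : ((chords r L).map (orient r a)).Pairwise (fun e f => ¬ SameL e.1 f.1) := by
        rw [List.pairwise_map]
        refine hCp.imp_of_mem ?_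
        intro e f he hf h hef
        apply h
        have t1 := orient_spec hG2 hr a e (hCd8 e he) ha8
        have t2 := orient_spec hG2 hr a f (hCd8 f hf) ha8
        exact sameL_trans (hCd8 f hf) (sameL_trans t2.2.2 (sameL_symm (hCd8 e he) t1.2.1) hef)
          t2.2.1
      have hOK : CapsOK r ((chords r L).map (orient r a)) := ⟨hr, hd, hlam, hpw2⟩
      obtain ⟨G, hperm, hG⟩ := (hABS1 r _ hOK).2 ((hABS2 r _ hOK).2 hs)
      refine ⟨G, hG, ?_⟩
      have hprop := laminar_proper hG2 hr _ hd hlam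
      rw [hCRE m hm G (fun e he => ⟨hd e (hperm.mem_iff.1 he), hprop e (hperm.mem_iff.1 he)⟩)
        (vsr_pairwise hG)]
      refine ⟨c1, ?_, ?_⟩
      · intro e he
        obtain ⟨f, hf, rfl⟩ := List.mem_map.1 (hperm.mem_iff.1 he)
        have t1 := orient_spec hG2 hr a f (hCd8 f hf) ha8
        exact ⟨f, hf, t1.1.symm, t1.2.1⟩
      · intro f hf
        have t1 := orient_spec hG2 hr a f (hCd8 f hf) ha8
        exact ⟨orient r a f, hperm.mem_iff.2 (List.mem_map_of_mem hf), t1.1.symm, t1.2.1⟩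

end Pool.Agent.Work.MP_bd4052_lc
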