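import Pool.Agent.Work.MP_bd4052_lc.Interface

set_option autoImplicit false

namespace Pool.Agent.Work.MP_bd4052_lc

namespace REF

theorem nvec_sq_pos (i : ℕ) : 0 < (nvec i).1 ^ 2 + (nvec i).2 ^ 2 := by
  simp only [nvec, ndot, nsub, Num.add, Num.neg]
  by_cases h0 : i = 0
  · simp [h0]
  by_cases h1 : i = 1
  · simp [h1]
  by_cases h2 : i = 2
  · simp [h2]
  by_cases h3 : i = 3
  · simp [h3]
  by_cases h4 : i = 4
  · simp [h4]
  by_cases h5 : i = 5
  · simp [h5]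
  by_cases h6 : i = 6
  · simp [h6]
  simp [h0, h1, h2, h3, h4, h5, h6]

/-- reflections are involutions -/
theorem refl_refl (a : Pt) (c : ℝ) (ha : 0 < a.1 ^ 2 + a.2 ^ 2) (z : Pt) :
    refl a c (refl a c z) = z := by
  have h : a.1 ^ 2 + a.2 ^ 2 ≠ 0 := ha.ne'
  apply Prod.ext
  · simp only [refl]
    field_simp
    ring
  · simp only [refl]
    field_simp
    ring

theorem rf_rf (c : Con ℝ) (z : Pt) : rf c (rf c z) = z := refl_refl _ _ (nvec_sq_pos _) z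

theorem continuous_refl (a : Pt) (c : ℝ) : Continuous (refl a c) := by
  unfold refl
  fun_prop

theorem continuous_rf (c : Con ℝ) : Continuous (rf c) := continuous_refl _ _

/-- reflections as homeomorphisms -/
noncomputable def rfH (c : Con ℝ) : Pt ≃ₜ Pt where
  toFun := rf c
  invFun := rf c
  left_inv := rf_rf c
  right_inv := rf_rf c
  continuous_toFun := continuous_rf c
  continuous_invFun := continuous_rf c

theorem gm_homeo (l : List (Cap ℝ)) : ∃ h : Pt ≃ₜ Pt, ⇑h = gm l := by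
  induction l with
  | nil => exact ⟨Homeomorph.refl _, by funext z; rfl⟩
  | cons f l ih =>
    obtain ⟨h, hh⟩ := ih
    refine ⟨(rfH f.1).trans h, ?_⟩
    funext z
    simp only [Homeomorph.trans_apply, gm, ← hh]
    rfl

/-- action of a reflection on constraints -/
theorem dot_rf (i j : ℕ) (hi : i < 8) (hj : j < 8) (b d : ℝ) (w : Pt) :
    dotR i (rf (j, d) w) - b = dotR ((2 * j + 12 - i) % 8) w - nlam i j b d := by
  interval_cases j <;> interval_cases i <;>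
    simp [dotR, rf, refl, nvec, ndot, nlam, nsub, Num.add, Num.neg] <;> ring

theorem mem_sol_reflect (j : ℕ) (hj : j < 8) (d : ℝ) (L : List (Con ℝ))
    (hL : ∀ c ∈ L, c.1 < 8) (w : Pt) :
    w ∈ sol (L.map (creflect j d)) ↔ rf (j, d) w ∈ sol L := by
  simp only [sol, Set.mem_ofPred_eq, List.mem_map, forall_exists_index, and_imp,
    forall_apply_eq_imp_iff₂]
  refine forall₂_congr fun c hc => ?_
  have h := dot_rf c.1 j (hL c hc) hj c.2 d w
  simp only [creflect]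
  constructor <;> intro h1 <;> linarith

theorem sol_reflect (j : ℕ) (hj : j < 8) (d : ℝ) (L : List (Con ℝ))
    (hL : ∀ c ∈ L, c.1 < 8) : sol (L.map (creflect j d)) = rf (j, d) '' sol L := by
  ext w
  rw [mem_sol_reflect j hj d L hL]
  constructor
  · intro h
    exact ⟨rf (j, d) w, h, rf_rf _ w⟩
  · rintro ⟨z, hz, rfl⟩
    rw [rf_rf]
    exact hz

theorem reflect_dir (j : ℕ) (d : ℝ) (L : List (Con ℝ)) : ∀ c ∈ L.map (creflect j d), c.1 < 8 := by
  intro c hc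
  rw [List.mem_map] at hc
  obtain ⟨c0, -, rfl⟩ := hc
  exact Nat.mod_lt _ (by norm_num)

theorem reflect_surj (j : ℕ) (hj : j < 8) (d : ℝ) (L : List (Con ℝ))
    (h : ∀ i < 8, ∃ c ∈ L, c.1 = i) : ∀ i < 8, ∃ c ∈ L.map (creflect j d), c.1 = i := by
  intro i hi
  obtain ⟨c, hc, hci⟩ := h ((2 * j + 12 - i) % 8) (Nat.mod_lt _ (by norm_num))
  refine ⟨creflect j d c, List.mem_map_of_mem hc, ?_⟩
  simp only [creflect, hci]
  omega

/-- a reflection moves lines to lines and conjugates reflections -/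
theorem refl_conj (n : Pt) (d : ℝ) (hn : 0 < n.1 ^ 2 + n.2 ^ 2) (a : Pt) (c : ℝ)
    (ha : 0 < a.1 ^ 2 + a.2 ^ 2) : ∃ (a' : Pt) (c' : ℝ), 0 < a'.1 ^ 2 + a'.2 ^ 2 ∧
      (∀ z, a.1 * (refl n d z).1 + a.2 * (refl n d z).2 - c = a'.1 * z.1 + a'.2 * z.2 - c') ∧
      ∀ z, refl a c (refl n d z) = refl n d (refl a' c' z) := by
  have hN : n.1 ^ 2 + n.2 ^ 2 ≠ 0 := hn.ne'
  have hA : a.1 ^ 2 + a.2 ^ 2 ≠ 0 := ha.ne'
  set k : ℝ := 2 * (a.1 * n.1 + a.2 * n.2) / (n.1 ^ 2 + n.2 ^ 2) with hk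
  have hk2 : k * (n.1 ^ 2 + n.2 ^ 2) = 2 * (a.1 * n.1 + a.2 * n.2) := by
    rw [hk]
    field_simp
  have hsq : (a.1 - k * n.1) ^ 2 + (a.2 - k * n.2) ^ 2 = a.1 ^ 2 + a.2 ^ 2 := by
    have : (a.1 - k * n.1) ^ 2 + (a.2 - k * n.2) ^ 2
        = a.1 ^ 2 + a.2 ^ 2 + k * (k * (n.1 ^ 2 + n.2 ^ 2) - 2 * (a.1 * n.1 + a.2 * n.2)) := by
      ring
    rw [this, hk2]
    ring
  have hlin : ∀ z : Pt, a.1 * (refl n d z).1 + a.2 * (refl n d z).2 - c
      = (a.1 - k * n.1) * z.1 + (a.2 - k * n.2) * z.2 - (c - k * d) := by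
    intro z
    simp only [refl, hk]
    field_simp
    ring
  refine ⟨(a.1 - k * n.1, a.2 - k * n.2), c - k * d, by simpa [hsq] using ha, hlin, ?_⟩
  intro z
  -- both sides in terms of `s = a · refl z - c`
  have h1 : refl a c (refl n d z) = ((refl n d z).1 - 2 * (a.1 * (refl n d z).1
      + a.2 * (refl n d z).2 - c) / (a.1 ^ 2 + a.2 ^ 2) * a.1, (refl n d z).2
      - 2 * (a.1 * (refl n d z).1 + a.2 * (refl n d z).2 - c) / (a.1 ^ 2 + a.2 ^ 2) * a.2) := rfl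
  rw [h1, hlin]
  set s : ℝ := 2 * ((a.1 - k * n.1) * z.1 + (a.2 - k * n.2) * z.2 - (c - k * d))
    / (a.1 ^ 2 + a.2 ^ 2) with hs
  have h2 : refl (a.1 - k * n.1, a.2 - k * n.2) (c - k * d) z
      = (z.1 - s * (a.1 - k * n.1), z.2 - s * (a.2 - k * n.2)) := by
    simp only [refl, hsq, hs]
  rw [h2]
  have hk3 : (a.1 - k * n.1) * n.1 + (a.2 - k * n.2) * n.2 = -(a.1 * n.1 + a.2 * n.2) := by
    have : (a.1 - k * n.1) * n.1 + (a.2 - k * n.2) * n.2
        = (a.1 * n.1 + a.2 * n.2) - k * (n.1 ^ 2 + n.2 ^ 2) := by ring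
    rw [this, hk2]
    ring
  have h3 : ∀ x y : ℝ, 2 * (n.1 * (z.1 - s * x) + n.2 * (z.2 - s * y) - d) / (n.1 ^ 2 + n.2 ^ 2)
      = 2 * (n.1 * z.1 + n.2 * z.2 - d) / (n.1 ^ 2 + n.2 ^ 2)
        - s * (2 * (x * n.1 + y * n.2) / (n.1 ^ 2 + n.2 ^ 2)) := by
    intro x y
    field_simp
    ring
  have h4 : 2 * ((a.1 - k * n.1) * n.1 + (a.2 - k * n.2) * n.2) / (n.1 ^ 2 + n.2 ^ 2) = -k := by
    rw [hk3, hk]
    ring
  apply Prod.ext
  · simp only [refl]
    rw [h3, h4]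
    ring
  · simp only [refl]
    rw [h3, h4]
    ring

theorem pos_of_ne (a : Pt) (ha : a ≠ 0) : 0 < a.1 ^ 2 + a.2 ^ 2 := by
  by_contra h
  apply ha
  have h1 : a.1 = 0 := by nlinarith [sq_nonneg a.1, sq_nonneg a.2]
  have h2 : a.2 = 0 := by nlinarith [sq_nonneg a.1, sq_nonneg a.2]
  exact Prod.ext h1 h2

theorem ne_of_pos (a : Pt) (ha : 0 < a.1 ^ 2 + a.2 ^ 2) : a ≠ 0 := by
  rintro rfl
  simp at ha

theorem gm_conj (l : List (Cap ℝ)) (a : Pt) (c : ℝ) (ha : a ≠ 0) :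
    ∃ (a' : Pt) (c' : ℝ), a' ≠ 0 ∧
      (∀ z, a.1 * (gm l z).1 + a.2 * (gm l z).2 - c = a'.1 * z.1 + a'.2 * z.2 - c') ∧
      ∀ z, refl a c (gm l z) = gm l (refl a' c' z) := by
  induction l with
  | nil => exact ⟨a, c, ha, fun z => rfl, fun z => rfl⟩
  | cons f l ih =>
    obtain ⟨a1, c1, h1, h2, h3⟩ := ih
    obtain ⟨a2, c2, h4, h5, h6⟩ := refl_conj (nvec f.1.1) f.1.2 (nvec_sq_pos _) a1 c1
      (pos_of_ne a1 h1)
    refine ⟨a2, c2, ne_of_pos a2 h4, fun z => ?_, fun z => ?_⟩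
    · rw [gm, h2]
      exact h5 z
    · rw [gm, h3, gm]
      congr 1
      exact h6 z

theorem gm_conj' (l : List (Cap ℝ)) (a : Pt) (c : ℝ) (ha : a ≠ 0) :
    ∃ (a' : Pt) (c' : ℝ), a' ≠ 0 ∧
      (∀ z, a'.1 * (gm l z).1 + a'.2 * (gm l z).2 - c' = a.1 * z.1 + a.2 * z.2 - c) ∧
      ∀ z, refl a' c' (gm l z) = gm l (refl a c z) := by
  induction l generalizing a c with
  | nil => exact ⟨a, c, ha, fun z => rfl, fun z => rfl⟩
  | cons f l ih =>
    obtain ⟨a1, c1, h4, h5, h6⟩ := refl_conj (nvec f.1.1) f.1.2 (nvec_sq_pos _) a c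
      (pos_of_ne a ha)
    obtain ⟨a2, c2, h1, h2, h3⟩ := ih a1 c1 (ne_of_pos a1 h4)
    have hinv : ∀ z, refl (nvec f.1.1) f.1.2 (rf f.1 z) = z := fun z => rf_rf f.1 z
    refine ⟨a2, c2, h1, fun z => ?_, fun z => ?_⟩
    · rw [gm, h2]
      have := h5 (rf f.1 z)
      rw [hinv] at this
      exact this.symm
    · rw [gm, h3, gm]
      congr 1
      have := h6 (rf f.1 z)
      rw [hinv] at this
      rw [this]
      exact (hinv _).symm

theorem capAt_dir (C : List (Cap ℝ)) (hC : ∀ e ∈ C, e.1.1 < 8) (j : ℕ) (hj : j < C.length) :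
    (capAt C j).1.1 < 8 := by
  unfold capAt
  rw [List.getD_eq_getElem _ _ hj]
  exact hC _ (List.getElem_mem hj)

theorem move_spec (C : List (Cap ℝ)) (hC : ∀ e ∈ C, e.1.1 < 8) (ch : List ℕ)
    (hch : ∀ j ∈ ch, j < C.length) (L : List (Con ℝ)) (hL : ∀ c ∈ L, c.1 < 8) :
    sol (move C ch L) = gm (ch.map (capAt C)) '' sol L ∧ (∀ c ∈ move C ch L, c.1 < 8) ∧
    ((∀ i < 8, ∃ c ∈ L, c.1 = i) → ∀ i < 8, ∃ c ∈ move C ch L, c.1 = i) := by
  induction ch generalizing L with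
  | nil =>
    refine ⟨?_, hL, fun h => h⟩
    simp [move, gm]
  | cons j ch ih =>
    have hj := capAt_dir C hC j (hch j List.mem_cons_self)
    have h1 := ih (fun i hi => hch i (List.mem_cons_of_mem _ hi))
      (L.map (creflect (capAt C j).1.1 (capAt C j).1.2)) (reflect_dir _ _ L)
    have hm : move C (j :: ch) L
        = move C ch (L.map (creflect (capAt C j).1.1 (capAt C j).1.2)) := rfl
    rw [hm]
    refine ⟨?_, h1.2.1, fun h => h1.2.2 (reflect_surj _ hj _ L h)⟩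
    rw [h1.1, sol_reflect _ hj _ L hL, Set.image_image]
    rfl

end REF

open REF in
theorem stmt_REF : Stmt_REF := by
  refine ⟨fun c _ z => rf_rf c z, fun j d L hj hL => ⟨sol_reflect j hj d L hL,
    reflect_dir j d L, reflect_surj j hj d L⟩, fun l _ => ?_, fun C ch L hC hL hch =>
    move_spec C hC ch hch L hL⟩
  obtain ⟨h, hh⟩ := gm_homeo l
  rw [← hh]
  refine ⟨h.bijective, h.continuous, fun S => (h.image_interior S).symm, ?_, ?_⟩
  · intro a c ha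
    rw [hh]
    exact gm_conj l a c ha
  · intro a c ha
    rw [hh]
    exact gm_conj' l a c ha

end Pool.Agent.Work.MP_bd4052_lc
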